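import Pool.Agent.W425.SG.Defs
import Pool.Agent.W655.SM.C4K

set_option autoImplicit false

/-! Part C4: the index is nonzero exactly if the exponents are affinely independent. -/

namespace Pool.Agent.W54.SG

open MvPolynomial Pool.Agent.H628R4.TZ Pool.Agent.H628R4.TP Pool.Agent.W425.SM
  Pool.Agent.W425.SG

variable {r N : ℕ}

/-- dual functional -/
lemma exists_dual {ι : Type} [Fintype ι] [DecidableEq ι] (v : ι → Fin N → ℕ)
    (h : AffineIndependent ℚ (fun j : ι => (fun i => (v j i : ℚ) : Fin N → ℚ))) (j0 : ι) :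
    ∃ φ : ((Fin N → ℚ) × ℚ) →ₗ[ℚ] ℚ, ∀ j, φ ((fun i => (v j i : ℚ)), 1) = if j = j0 then 1 else 0 := by
  have hli : LinearIndependent ℚ (fun j : ι => (((fun i => (v j i : ℚ)) : Fin N → ℚ), (1:ℚ))) := by
    rw [Fintype.linearIndependent_iff]
    intro g hg
    have h1 := congrArg Prod.fst hg
    have h2 := congrArg Prod.snd hg
    simp only [Prod.fst_sum, Prod.snd_sum, Prod.smul_fst, Prod.smul_snd, smul_eq_mul, mul_one,
      Prod.fst_zero, Prod.snd_zero] at h1 h2
    exact fun i => (affineIndependent_iff.1 h) Finset.univ g h2 h1 i (Finset.mem_univ i)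
  obtain ⟨φ, hφ⟩ := LinearMap.exists_extend ((Finsupp.lapply j0 : (ι →₀ ℚ) →ₗ[ℚ] ℚ) ∘ₗ hli.repr)
  refine ⟨φ, fun j => ?_⟩
  have hmem : (((fun i => (v j i : ℚ)) : Fin N → ℚ), (1:ℚ)) ∈ Submodule.span ℚ (Set.range (fun j : ι => (((fun i => (v j i : ℚ)) : Fin N → ℚ), (1:ℚ)))) :=
    Submodule.subset_span ⟨j, rfl⟩
  have h3 := LinearMap.congr_fun hφ ⟨_, hmem⟩
  simp only [LinearMap.comp_apply, Submodule.subtype_apply] at h3
  rw [h3, hli.repr_eq_single j ⟨_, hmem⟩ rfl]
  simp [Finsupp.single_apply]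

lemma exists_int {ι : Type} [Fintype ι] [DecidableEq ι] (v : ι → Fin N → ℕ)
    (h : AffineIndependent ℚ (fun j : ι => (fun i => (v j i : ℚ) : Fin N → ℚ))) (j0 : ι) :
    ∃ (n : ℕ) (w : Fin N → ℤ) (t : ℤ), 0 < n ∧ ∀ j, ∑ i, w i * (v j i : ℤ) + t =
      if j = j0 then (n : ℤ) else 0 := by
  obtain ⟨φ, hφ⟩ := exists_dual v h j0
  obtain ⟨n, z, hn, hz⟩ := Pool.Agent.W655.SM.exists_mul (fun i => φ (Pi.single i 1, 0))
  refine ⟨n * (φ (0, 1)).den, fun i => z i * (φ (0, 1)).den, n * (φ (0,1)).num, 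
    Nat.mul_pos hn (φ (0,1)).pos, fun j => ?_⟩
  have h1 : φ ((fun i => (v j i : ℚ)), 1) = ∑ i, (v j i : ℚ) * φ (Pi.single i 1, 0) + φ (0, 1) := by
    have h2 : (((fun i => (v j i : ℚ)) : Fin N → ℚ), (1:ℚ)) =
        ∑ i, (v j i : ℚ) • ((Pi.single i 1 : Fin N → ℚ), (0:ℚ)) + ((0 : Fin N → ℚ), (1:ℚ)) := by
      refine Prod.ext ?_ ?_
      · simp only [Prod.fst_add, Prod.fst_sum, Prod.smul_fst, add_zero]
        funext i
        simp [Finset.sum_apply, Pi.single_apply]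
      · simp [Prod.snd_sum]
    rw [h2, map_add, map_sum]
    simp only [map_smul, smul_eq_mul]
  have h3 := hφ j
  rw [h1] at h3
  have h4 : ((∑ i, (z i * (φ (0, 1)).den) * (v j i : ℤ) + n * (φ (0,1)).num : ℤ) : ℚ) =
      ((if j = j0 then ((n * (φ (0, 1)).den : ℕ) : ℤ) else 0 : ℤ) : ℚ) := by
    have h5 : (((φ (0,1)).num : ℤ) : ℚ) = φ (0,1) * (φ (0,1)).den := (Rat.mul_den_eq_num _).symm
    push_cast
    rw [h5]
    simp only [hz]
    have h6 : ∑ x, (n : ℚ) * φ (Pi.single x 1, 0) * ((φ (0, 1)).den : ℚ) * (v j x : ℚ) =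
        (n : ℚ) * ((φ (0, 1)).den : ℚ) * ∑ i, (v j i : ℚ) * φ (Pi.single i 1, 0) := by
      rw [Finset.mul_sum]
      exact Finset.sum_congr rfl fun i _ => by ring
    rw [h6]
    have h7 : (n : ℚ) * ((φ (0, 1)).den : ℚ) * ∑ i, (v j i : ℚ) * φ (Pi.single i 1, 0) +
        n * (φ (0,1) * (φ (0,1)).den) = (n : ℚ) * ((φ (0, 1)).den : ℚ) *
        (∑ i, (v j i : ℚ) * φ (Pi.single i 1, 0) + φ (0, 1)) := by ring
    rw [h7, h3]
    split_ifs <;> simp
  exact_mod_cast h4

/-- common denominators over a finite type -/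
lemma exists_mul' {ι : Type} [Fintype ι] [DecidableEq ι] (q : ι → ℚ) :
    ∃ (n : ℕ) (z : ι → ℤ), 0 < n ∧ ∀ i, (z i : ℚ) = n * q i := by
  refine ⟨∏ i, (q i).den, fun i => (∏ k ∈ Finset.univ.erase i, ((q k).den : ℤ)) * (q i).num, ?_, ?_⟩
  · exact Finset.prod_pos fun i _ => (q i).pos
  · intro i
    rw [← Finset.mul_prod_erase Finset.univ (fun k => (q k).den) (Finset.mem_univ i)]
    push_cast
    rw [mul_comm ((q i).den : ℚ), mul_assoc, Rat.den_mul_eq_num]

/-- an affine relation with integer coefficients -/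
lemma exists_rel (v : Fin r → Fin N → ℕ) (J : Finset (Fin r)) (h : ¬ IndJ v J) :
    ∃ μ : J → ℤ, μ ≠ 0 ∧ ∑ j, μ j = 0 ∧ ∀ i, ∑ j, μ j * (v j i : ℤ) = 0 := by
  unfold IndJ at h
  rw [affineIndependent_iff] at h
  push Not at h
  obtain ⟨s, w, h1, h2, j0, hj0, hw⟩ := h
  classical
  obtain ⟨n, z, hn, hz⟩ := exists_mul' (fun j : J => if j ∈ s then w j else 0)
  refine ⟨z, ?_, ?_, ?_⟩
  · intro h0
    have h3 := hz j0
    rw [h0, if_pos hj0] at h3
    have : (n : ℚ) ≠ 0 := by exact_mod_cast hn.ne'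
    have h4 : (n : ℚ) * w j0 = 0 := by rw [← h3]; simp
    rcases mul_eq_zero.1 h4 with h | h
    · exact this h
    · exact hw h
  · have h3 : ((∑ j, z j : ℤ) : ℚ) = 0 := by
      push_cast
      simp only [hz]
      rw [← Finset.mul_sum, Finset.sum_ite_mem, Finset.univ_inter, h1, mul_zero]
    exact_mod_cast h3
  · intro i
    have h3 : ((∑ j, z j * (v j i : ℤ) : ℤ) : ℚ) = 0 := by
      push_cast
      simp only [hz, mul_assoc, ite_mul, zero_mul]
      rw [← Finset.mul_sum, Finset.sum_ite_mem, Finset.univ_inter]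
      have h4 := congrFun h2 i
      simp only [Finset.sum_apply, Pi.smul_apply, smul_eq_mul, Pi.zero_apply] at h4
      rw [h4, mul_zero]
    exact_mod_cast h3

lemma idx_ne_zero (v : Fin r → Fin N → ℕ) (J : Finset (Fin r)) (h : IndJ v J) : idx v J ≠ 0 := by
  rw [idx, AddSubgroup.index_ne_zero_iff_finite]
  have hfin : Module.Finite ℤ ((J → ℤ) ⧸ (evalHom v J).range) := by
    have : Module.Finite ℤ ((J → ℤ) ⧸ AddSubgroup.toIntSubmodule (evalHom v J).range) := inferInstance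
    exact this
  have hfg : AddGroup.FG ((J → ℤ) ⧸ (evalHom v J).range) := Module.Finite.iff_addGroup_fg.mp hfin
  refine AddCommGroup.finite_of_fg_isAddTorsion _ ?_
  intro x
  obtain ⟨f, rfl⟩ := QuotientAddGroup.mk_surjective x
  have h1 : ∀ j : J, (QuotientAddGroup.mk (Pi.single j (1:ℤ)) : (J → ℤ) ⧸ (evalHom v J).range) ∈
      AddCommGroup.torsion ((J → ℤ) ⧸ (evalHom v J).range) := by
    intro j
    obtain ⟨n, w, t, hn, hw⟩ := exists_int (fun j : J => v j) h j
    refine isOfFinAddOrder_iff_nsmul_eq_zero.2 ⟨n, hn, ?_⟩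
    rw [← QuotientAddGroup.mk_nsmul, QuotientAddGroup.eq_zero_iff]
    refine ⟨(w, t), ?_⟩
    funext k
    show ∑ i, w i * (v k i : ℤ) + t = _
    rw [hw, Pi.smul_apply, Pi.single_apply]
    by_cases hkj : k = j
    · rw [if_pos hkj, if_pos hkj]
      simp
    · rw [if_neg hkj, if_neg hkj]
      simp
  have h2 : f = ∑ j, f j • Pi.single j (1:ℤ) := by
    funext k
    simp [Finset.sum_apply, Pi.single_apply]
  show QuotientAddGroup.mk f ∈ AddCommGroup.torsion ((J → ℤ) ⧸ (evalHom v J).range)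
  have h3 : (QuotientAddGroup.mk f : (J → ℤ) ⧸ (evalHom v J).range) =
      ∑ j, f j • QuotientAddGroup.mk (Pi.single j (1:ℤ)) := by
    conv_lhs => rw [h2]
    have h4 := map_sum (QuotientAddGroup.mk' (evalHom v J).range)
      (fun j => f j • Pi.single j (1:ℤ)) Finset.univ
    refine h4.trans (Finset.sum_congr rfl fun j _ => ?_)
    rw [map_zsmul]
    rfl
  rw [h3]
  exact AddSubgroup.sum_mem _ fun j _ => AddSubgroup.zsmul_mem _ (h1 j) _

lemma idx_eq_zero (v : Fin r → Fin N → ℕ) (J : Finset (Fin r)) (h : ¬ IndJ v J) : idx v J = 0 := by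
  obtain ⟨μ, hμ, h1, h2⟩ := exists_rel v J h
  by_contra hne
  rw [idx] at hne
  -- the vector `μ` itself has a multiple in the range
  have h3 : (evalHom v J).range.index • μ ∈ (evalHom v J).range := by
    exact AddSubgroup.nsmul_index_mem _ μ
  obtain ⟨p, hp⟩ := h3
  have h4 : ∑ j, μ j * (evalHom v J p) j = 0 := by
    obtain ⟨w, t⟩ := p
    have h5 : ∀ j : J, evalHom v J (w, t) j = ∑ i, w i * (v j i : ℤ) + t := fun j => rfl
    simp only [h5, mul_add, Finset.sum_add_distrib, Finset.mul_sum]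
    rw [← Finset.sum_mul, h1, zero_mul, add_zero, Finset.sum_comm]
    refine Finset.sum_eq_zero fun i _ => ?_
    have h6 := h2 i
    calc ∑ j : J, μ j * (w i * (v j i : ℤ)) = w i * ∑ j : J, μ j * (v j i : ℤ) := by
          rw [Finset.mul_sum]
          exact Finset.sum_congr rfl fun j _ => by ring
      _ = 0 := by rw [h6, mul_zero]
  rw [hp] at h4
  have h7 : ((evalHom v J).range.index : ℤ) * ∑ j, μ j * μ j = 0 := by
    rw [← h4, Finset.mul_sum]
    refine Finset.sum_congr rfl fun j _ => ?_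
    simp only [Pi.smul_apply, nsmul_eq_mul]
    ring
  rcases mul_eq_zero.1 h7 with h | h
  · exact hne (by exact_mod_cast h)
  · apply hμ
    funext j
    have h8 := (Finset.sum_eq_zero_iff_of_nonneg (fun j _ => mul_self_nonneg (μ j))).1 h j
      (Finset.mem_univ j)
    exact mul_self_eq_zero.1 h8

theorem taskC4 : Pool.Agent.W425.SG.TaskC4 := by
  intro r N v J
  have key : ∀ f : J → ℤ, J.card ≤ 1 → f ∈ (evalHom v J).range := by
    intro f hJ
    rw [Finset.card_le_one] at hJ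
    by_cases hne : J.Nonempty
    · obtain ⟨j0, hj0⟩ := hne
      refine ⟨(0, f ⟨j0, hj0⟩), ?_⟩
      funext j
      have : j = ⟨j0, hj0⟩ := Subtype.ext (hJ _ j.2 _ hj0)
      subst this
      simp [evalHom]
    · refine ⟨0, ?_⟩
      funext j
      exact absurd ⟨_, j.2⟩ hne
  have key2 : J.card ≤ 1 → idx v J = 1 := by
    intro hJ
    rw [idx, AddSubgroup.index_eq_one, eq_top_iff]
    exact fun f _ => key f hJ
  refine ⟨⟨fun h => ?_, idx_ne_zero v J⟩, fun hJ => key2 (by omega), fun hJ => key2 (by omega)⟩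
  by_contra hn
  exact h (idx_eq_zero v J hn)

end Pool.Agent.W54.SG
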